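import Mathlib
import Pool.Agent.MP_c1dca2_ag.GT.A10
import Pool.Agent.T1B.Defs

/-!
# [TIF] common definitions

`T : Tab Ω d` is the table (over the universal domain `Ω`) of the ring of functions of a curve with
poles only at one point; `Tk k T` says that it is defined over `k`. The Jacobian is
`ClassGroup (WB T)` (written multiplicatively), the affine points are `WB T →ₐ[Ω] Ω`.
-/

set_option autoImplicit false
set_option linter.unusedSectionVars false

open Polynomial GT

namespace TIF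

section

variable (k : Type) {Ω : Type} [Field k] [Field Ω] [Algebra k Ω] {d : ℕ} [NeZero d]

/-- the table is defined over `k` -/
def Tk (T : Tab Ω d) : Prop := ∃ T₀ : Tab k d, T₀.map (algebraMap k Ω) = T

/-- `Ω` is a universal domain for `k` -/
def Univ (Ω : Type) [Field Ω] [Algebra k Ω] : Prop :=
  ∀ S : Finset Ω, ∃ t : Ω, Transcendental (IntermediateField.adjoin k (S : Set Ω)) t

/-- the automorphisms of `Ω / k` which fix `S` -/
def Fx (S : Set Ω) : Subgroup (Ω ≃ₐ[k] Ω) where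
  carrier := {σ | ∀ x ∈ S, σ x = x}
  mul_mem' {σ τ} hσ hτ x hx := by rw [AlgEquiv.mul_apply, hτ x hx, hσ x hx]
  one_mem' _ _ := rfl
  inv_mem' {σ} hσ x hx := by
    have := hσ x hx
    calc σ⁻¹ x = σ⁻¹ (σ x) := by rw [this]
      _ = x := σ.symm_apply_apply x

/-- the elements of `Ω` algebraic over `k` -/
def kb (Ω : Type) [Field Ω] [Algebra k Ω] : Set Ω := {x | IsAlgebraic k x}

end

section

variable {k Ω : Type} [Field k] [Field Ω] [Algebra k Ω] {d : ℕ} [NeZero d] {T : Tab Ω d}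

theorem Tk.map (hT : Tk k T) (σ : Ω ≃ₐ[k] Ω) : T.map ((σ : Ω ≃+* Ω) : Ω →+* Ω) = T := by
  obtain ⟨T₀, rfl⟩ := hT
  rw [Tab.map_map]
  congr 1
  ext x
  exact σ.commutes x

/-- the action of the automorphisms on the functions -/
noncomputable def rac (hT : Tk k T) (σ : Ω ≃ₐ[k] Ω) : WB T ≃+* WB T :=
  bE (σ : Ω ≃+* Ω) (hT.map σ)

/-- the function `b` has coefficients in `K` -/
def Cf (K : Set Ω) (b : WB T) : Prop := ∀ j n, (b.co j).coeff n ∈ K

/-- the ideal `I` is defined over `K` -/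
def RatI (K : Set Ω) (I : Ideal (WB T)) : Prop := I = Ideal.span {b | b ∈ I ∧ Cf K b}

variable [IsDedekindDomain (WB T)]

/-- the action of the automorphisms on the Jacobian -/
noncomputable def act (hT : Tk k T) (σ : Ω ≃ₐ[k] Ω) : ClassGroup (WB T) →* ClassGroup (WB T) :=
  clm (rac hT σ)

/-- the class of a point (the point minus the point at infinity) -/
noncomputable def iot (P : WB T →ₐ[Ω] Ω) : ClassGroup (WB T) := cls (RingHom.ker P)

/-- the classes rational over `K` -/
def JK [IsAlgClosed Ω] (K : Set Ω) : Set (ClassGroup (WB T)) := {D | RatI K (rdc D)}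

end

section

variable (k : Type) {Ω : Type} [Field k] [Field Ω] [Algebra k Ω] {d : ℕ} [NeZero d] {T : Tab Ω d}

/-- the field of the coordinates of a point -/
noncomputable def kP (P : WB T →ₐ[Ω] Ω) : IntermediateField k Ω :=
  IntermediateField.adjoin k {x | ∃ b : WB T, Cf (Set.range (algebraMap k Ω)) b ∧ P b = x}

/-- `P` is a generic point over `A` -/
def GenP (A : IntermediateField k Ω) (P : WB T →ₐ[Ω] Ω) : Prop :=
  ∃ b : WB T, Cf (Set.range (algebraMap k Ω)) b ∧ Transcendental A (P b)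

/-- `v` is an honest endomorphism of the Jacobian over `k` -/
structure Hon [IsAlgClosed Ω] [IsDedekindDomain (WB T)] (hT : Tk k T)
    (v : ClassGroup (WB T) →* ClassGroup (WB T)) : Prop where
  equ : ∀ (σ : Ω ≃ₐ[k] Ω) (D : ClassGroup (WB T)), v (act hT σ D) = act hT σ (v D)
  rat : ∀ P : WB T →ₐ[Ω] Ω, GenP k ⊥ P → v (iot P) ∈ JK (T := T) (kP k P : Set Ω)

/-- a basis of the Tate module `T_ℓ`: `tau n` is the map `T_ℓ → J[ℓ^n]` -/
structure TB {Ω : Type} [Field Ω] {d : ℕ} [NeZero d] (T : Tab Ω d) [IsDedekindDomain (WB T)] (ℓ : ℕ) [Fact ℓ.Prime] (h : ℕ)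
    (tau : ℕ → (Fin h → ℤ_[ℓ]) → ClassGroup (WB T)) : Prop where
  add : ∀ n x y, tau n (x + y) = tau n x * tau n y
  step : ∀ n x, tau (n + 1) x ^ ℓ = tau n x
  ker : ∀ n x, tau n x = 1 ↔ ∃ y, x = (ℓ : ℤ_[ℓ]) ^ n • y
  sur : ∀ n D, D ^ ℓ ^ n = 1 → ∃ x, tau n x = D

end

end TIF
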