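import Mathlib
import Pool.Agent.TIF.Defs

/-!
# [TIF] the statements of the blocks
-/

set_option autoImplicit false
set_option linter.unusedSectionVars false

open Polynomial GT

namespace TIF

section

variable (k : Type) {Ω : Type} [Field k] [Field Ω] [Algebra k Ω] {d : ℕ} [NeZero d] (T : Tab Ω d)
  [IsAlgClosed Ω] [IsDedekindDomain (WB T)]

/-- `M` commutes with the action of the Galois group on the Tate module -/
def Comm {T : Tab Ω d} [IsDedekindDomain (WB T)] (hT : Tk k T) {ℓ : ℕ} [Fact ℓ.Prime] {h : ℕ}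
    (tau : ℕ → (Fin h → ℤ_[ℓ]) → ClassGroup (WB T)) (M : Matrix (Fin h) (Fin h) ℤ_[ℓ]) : Prop :=
  ∀ (σ : Ω ≃ₐ[k] Ω) (R : Matrix (Fin h) (Fin h) ℤ_[ℓ]),
    (∀ n x, act hT σ (tau n x) = tau n (R.mulVec x)) → M * R = R * M

/-- Tate's theorem over `k`: the commutant of the Galois group is spanned by the honest
endomorphisms of the Jacobian which are defined over `k` -/
def Tate (hT : Tk k T) (ℓ : ℕ) [Fact ℓ.Prime] : Prop :=
  ∀ (h : ℕ) (tau : ℕ → (Fin h → ℤ_[ℓ]) → ClassGroup (WB T)), TB T ℓ h tau →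
    ∀ M : Matrix (Fin h) (Fin h) ℤ_[ℓ], Comm k hT tau M →
      ∃ (s m : ℕ) (v : Fin m → ClassGroup (WB T) →* ClassGroup (WB T))
        (A : Fin m → Matrix (Fin h) (Fin h) ℤ_[ℓ]) (a : Fin m → ℤ_[ℓ]),
        (∀ i, Hon k hT (v i)) ∧ (∀ i n x, v i (tau n x) = tau n ((A i).mulVec x)) ∧
        (ℓ : ℤ_[ℓ]) ^ s • M = ∑ i, a i • A i

/-- the Frobenius automorphism is semisimple on the Tate module, in the form: it has no Jordan block
for the eigenvalue `1` on the endomorphisms of the Tate module -/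
def Semi (hT : Tk k T) (ℓ : ℕ) [Fact ℓ.Prime] : Prop :=
  ∀ (h : ℕ) (tau : ℕ → (Fin h → ℤ_[ℓ]) → ClassGroup (WB T)), TB T ℓ h tau →
    ∀ (σ : Ω ≃ₐ[k] Ω), (∀ x ∈ kb k Ω, σ x = x ^ Nat.card k) →
      ∀ R : Matrix (Fin h) (Fin h) ℤ_[ℓ], (∀ n x, act hT σ (tau n x) = tau n (R.mulVec x)) →
        ∀ M : Matrix (Fin h) (Fin h) ℤ_[ℓ],
          (R * M - M * R) * R = R * (R * M - M * R) → R * M = M * R

end

/-- blocks THETA + TORS + PIG + REC -/
def TateStmt : Prop :=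
  ∀ (k Ω : Type) [Field k] [Finite k] [Field Ω] [Algebra k Ω] [IsAlgClosed Ω] (_ : Univ k Ω)
    (d : ℕ) [NeZero d] (T : Tab Ω d) [IsDedekindDomain (WB T)] (hT : Tk k T)
    (ℓ : ℕ) [Fact ℓ.Prime] (_ : (ℓ : k) ≠ 0), Tate k T hT ℓ ∧ Semi k T hT ℓ

/-- block LINK (with TORS) -/
def LinkStmt : Prop :=
  ∀ (k Ω : Type) [Field k] [Finite k] [Field Ω] [Algebra k Ω] [IsAlgClosed Ω] (_ : Univ k Ω)
    (d : ℕ) [NeZero d] (T : Tab Ω d) [IsDedekindDomain (WB T)] (hT : Tk k T)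
    (ℓ : ℕ) [Fact ℓ.Prime] (_ : (ℓ : k) ≠ 0),
    (∀ (k' : Type) [Field k'] [Finite k'] [Algebra k k'] [Algebra k' Ω] [IsScalarTower k k' Ω]
      (hT' : Tk k' T), Tate k' T hT' ℓ ∧ Semi k' T hT' ℓ) →
    ∀ P Q : WB T →ₐ[Ω] Ω, GenP k ⊥ P → GenP k (kP k P) Q →
      Pool.Agent.T1B.T1 k (kP k P ⊔ kP k Q : IntermediateField k Ω) ℓ

/-- block CRV: two function fields of one variable are contained in the function fields
of two generic points of one curve with a rational point -/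
def CrvStmt : Prop :=
  ∀ (k M : Type) [Field k] [Finite k] [Field M] [Algebra k M] [IsAlgClosed M]
    (K₁ K₂ : IntermediateField k M), K₁.FG → K₂.FG → Algebra.trdeg k K₁ ≤ 1 →
    Algebra.trdeg k K₂ ≤ 1 → Algebra.trdeg k (K₁ ⊔ K₂ : IntermediateField k M) = 2 →
    ∃ (k' Ω : Type) (_ : Field k') (_ : Finite k') (_ : Field Ω) (_ : Algebra k' Ω)
      (_ : Algebra k k') (_ : Algebra k Ω) (_ : IsScalarTower k k' Ω) (_ : IsAlgClosed Ω)
      (_ : Univ k' Ω) (d : ℕ) (_ : NeZero d) (T : Tab Ω d) (_ : IsDedekindDomain (WB T))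
      (_ : Tk k' T) (P Q : WB T →ₐ[Ω] Ω) (ι : (K₁ ⊔ K₂ : IntermediateField k M) →ₐ[k] Ω),
      GenP k' ⊥ P ∧ GenP k' (kP k' P) Q ∧
        ∀ x, ι x ∈ (kP k' P ⊔ kP k' Q : IntermediateField k' Ω)

/-- the goal -/
def Goal : Prop :=
  ∀ (k M : Type) [Field k] [Finite k] [Field M] [Algebra k M] [IsAlgClosed M]
    (K₁ K₂ : IntermediateField k M), K₁.FG → K₂.FG → Algebra.trdeg k K₁ ≤ 1 →
    Algebra.trdeg k K₂ ≤ 1 → ∀ ℓ : ℕ, ℓ.Prime → (ℓ : k) ≠ 0 →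
      Pool.Agent.T1B.T1 k (K₁ ⊔ K₂ : IntermediateField k M) ℓ

end TIF
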