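import Mathlib
import Pool.Agent.TIF.Stmt
import Pool.Agent.T1B.Dominated
import Pool.Agent.TBM.Br

/-!
# [TIF] the goal from the statements of the blocks
-/

set_option autoImplicit false
set_option linter.unusedSectionVars false

open Polynomial GT

namespace TIF

open Pool.Agent Pool.Agent.T1B Pool.Agent.TBR

universe u

/-! ### fields of transcendence degree one: Tsen -/

section tsen

variable {k Ω : Type u} [Field k] [Field Ω] [Algebra k Ω]

theorem exists_t (h : Algebra.trdeg k Ω ≤ 1) : ∃ t : Ω, ∀ x : Ω,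
    IsAlgebraic (IntermediateField.adjoin k {t}) x := by
  have h' : Algebra.trdeg k (⊤ : IntermediateField k Ω) ≤ 1 := by
    refine le_trans ?_ h
    exact trdeg_le_of_injective (⊤ : IntermediateField k Ω).val Subtype.val_injective
  obtain ⟨S, hS, hS'⟩ := exists_small (⊤ : IntermediateField k Ω) h'
  have h1 : S.Subsingleton := by
    rw [← Set.subsingleton_coe]
    exact Cardinal.le_one_iff_subsingleton.1 hS
  have key : ∀ {A B : IntermediateField k Ω} (_ : A ≤ B) {a : Ω}, IsAlgebraic A a →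
      IsAlgebraic B a := by
    rintro A B hAB a ⟨p, hp0, hp⟩
    refine ⟨p.map (IntermediateField.inclusion hAB : A →+* B),
      (Polynomial.map_ne_zero_iff (IntermediateField.inclusion_injective hAB)).2 hp0, ?_⟩
    rw [Polynomial.aeval_def, Polynomial.eval₂_map]
    exact hp
  rcases h1.eq_empty_or_singleton with h2 | ⟨t, h2⟩
  · refine ⟨0, fun x => key ?_ (hS' x trivial)⟩
    rw [h2]
    exact IntermediateField.adjoin.mono k _ _ (Set.empty_subset _)
  · refine ⟨t, fun x => ?_⟩
    rw [← h2]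
    exact hS' x trivial

theorem tri_of_le_one [IsAlgClosed Ω] (h : Algebra.trdeg k Ω ≤ 1) (K : IntermediateField k Ω)
    (halg : ∀ x : Ω, IsAlgebraic K x) (c : (Ω ≃ₐ[k] Ω) → (Ω ≃ₐ[k] Ω) → Ωˣ)
    (hlc : Lc2 Set.univ c) (hc : TBR.Coc (Ge k (K : Set Ω)) c) : Tri (Ge k (K : Set Ω)) c := by
  obtain ⟨t, ht⟩ := exists_t h
  let κ : IntermediateField k Ω := algebraicClosure k Ω
  have hcl : IsAlgClosed (algebraicClosure k Ω) :=
    IsAlgClosure.isAlgClosed (R := k)
  have hcl' : IsAlgClosed κ := hcl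
  have horb : Orb (Ge k (K : Set Ω)) ((⊤ : IntermediateField k Ω) : Set Ω) := by
    intro x _
    obtain ⟨p, hp, hpx⟩ := halg x
    refine (p.rootSet_finite Ω).subset ?_
    rintro y ⟨σ, hσ, rfl⟩
    rw [Polynomial.mem_rootSet]
    refine ⟨hp, ?_⟩
    have h1 : (p.map (algebraMap K Ω)).map ((σ : Ω ≃ₐ[k] Ω) : Ω →+* Ω) = p.map (algebraMap K Ω) := by
      rw [Polynomial.map_map]
      congr 1
      ext a
      exact hσ.1 _ a.2
    have h2 : Polynomial.eval (σ x) (p.map (algebraMap K Ω)) = 0 := by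
      rw [← h1, Polynomial.eval_map]
      show Polynomial.eval₂ ((σ : Ω ≃ₐ[k] Ω) : Ω →+* Ω) (((σ : Ω ≃ₐ[k] Ω) : Ω →+* Ω) x) _ = 0
      rw [Polynomial.eval₂_at_apply, Polynomial.eval_map]
      have h3 : Polynomial.eval₂ (algebraMap K Ω) x p = 0 := hpx
      rw [h3]
      exact map_zero _
    rw [Polynomial.eval_map] at h2
    exact h2
  obtain ⟨b, hb, -, hb'⟩ := tsu (Ge k (K : Set Ω)) κ ⊤ le_top
    (fun σ hσ x hx => hσ.2 x (mem_algebraicClosure_iff.1 hx)) (fun _ _ _ _ => trivial) t trivial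
    (fun x _ => by
      obtain ⟨p, hp0, hp⟩ := ht x
      have hle : IntermediateField.adjoin k {t} ≤ AA κ {t} := le_sup_right
      refine ⟨p.map (IntermediateField.inclusion hle : IntermediateField.adjoin k {t} →+* AA κ {t}),
        (Polynomial.map_ne_zero_iff (IntermediateField.inclusion_injective hle)).2 hp0, ?_⟩
      rw [Polynomial.aeval_def, Polynomial.eval₂_map]
      exact hp)
    horb c (fun _ _ _ _ => trivial) (by
      obtain ⟨S, -, hS⟩ := hlc
      exact ⟨S, fun _ _ => trivial, hS⟩) hc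
  exact ⟨b, by
    obtain ⟨S, -, hS⟩ := hb
    exact ⟨S, fun _ _ => trivial, hS⟩, hb'⟩

end tsen

/-- the vanishing for fields of transcendence degree at most one -/
theorem t1_le_one {k F : Type u} [Field k] [Field F] [Algebra k F] (h : Algebra.trdeg k F ≤ 1)
    {ℓ : ℕ} (hℓ : ℓ.Prime) : T1 k F ℓ := by
  let Ω := AlgebraicClosure F
  let K : IntermediateField k Ω := (IsScalarTower.toAlgHom k F Ω).fieldRange
  let j : F →ₐ[k] K := (IsScalarTower.toAlgHom k F Ω).rangeRestrict
  let _ : Algebra F K := j.toRingHom.toAlgebra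
  have _ : IsScalarTower k F K := IsScalarTower.of_algebraMap_eq (fun x => (j.commutes x).symm)
  have hsur : Function.Surjective (algebraMap F K) :=
    (IsScalarTower.toAlgHom k F Ω).rangeRestrict_surjective
  have hfin : FiniteDimensional F K := by
    refine ⟨⟨{1}, ?_⟩⟩
    rw [eq_top_iff]
    rintro y -
    obtain ⟨x, rfl⟩ := hsur y
    rw [Algebra.algebraMap_eq_smul_one]
    exact Submodule.smul_mem _ _ (Submodule.subset_span (by simp))
  have halg : ∀ x : Ω, IsAlgebraic K x := by
    intro x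
    obtain ⟨p, hp0, hp⟩ := (inferInstance : Algebra.IsAlgebraic F Ω).isAlgebraic x
    refine ⟨p.map (algebraMap F K), (Polynomial.map_ne_zero_iff (algebraMap F K).injective).2 hp0, ?_⟩
    rw [Polynomial.aeval_def, Polynomial.eval₂_map]
    exact hp
  have halg' : Algebra.IsAlgebraic K Ω := ⟨halg⟩
  have hΩ : Algebra.trdeg k Ω ≤ 1 := by
    have h3 := trdeg_add_eq k F (A := Ω)
    have h4 : Algebra.trdeg F Ω = 0 := trdeg_eq_zero
    rw [← h3, h4, add_zero]
    exact h
  refine T1.descend (F' := K) hℓ ?_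
  rw [t1_iff k K Ω ℓ]
  intro c hc n
  obtain ⟨C, hC, hCc⟩ := sysK K halg ℓ c hc
  have h1 : Tri (Ge k (K : Set Ω)) (C n) := tri_of_le_one hΩ K halg (C n) (hC.lc n) (hC.coc n)
  have h2 := (tri_iff K halg (Ge k (K : Set Ω)) inf_le_left (C n)).1 h1
  rw [sysK_aux4] at h2
  refine h2.congr (fun σ _ τ _ => hCc n σ τ)

/-! ### change of the constants -/

theorem T1_of_alg {k k' L : Type u} [Field k] [Field k'] [Field L] [Algebra k k'] [Algebra k' L]
    [Algebra k L] [IsScalarTower k k' L] [Algebra.IsAlgebraic k k'] {ℓ : ℕ} (h : T1 k' L ℓ) :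
    T1 k L ℓ := by
  have _ : IsScalarTower k k' (AlgebraicClosure L) := IsScalarTower.of_algebraMap_eq (fun x => by
    rw [IsScalarTower.algebraMap_apply k L (AlgebraicClosure L),
      IsScalarTower.algebraMap_apply k' L (AlgebraicClosure L),
      IsScalarTower.algebraMap_apply k k' L])
  have hgeo : geo k L (AlgebraicClosure L) = geo k' L (AlgebraicClosure L) := by
    ext σ
    refine ⟨fun hσ x hx => hσ x ?_, fun hσ x hx => hσ x (hx.tower_top k')⟩
    exact hx.restrictScalars k
  intro c hc n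
  rw [hgeo]
  refine h c ⟨hc.lc, ?_, ?_, ?_, ?_, ?_⟩ n
  · rw [← hgeo]; exact hc.coc
  · rw [← hgeo]; exact hc.zero
  · rw [← hgeo]; exact hc.step
  · rw [← hgeo]; exact hc.inv
  · rw [← hgeo]
    intro n V hV hV'
    refine hc.unr n V (fun x => ?_) hV'
    rw [IsScalarTower.algebraMap_apply k k' (AlgebraicClosure L)]
    exact hV _

/-- descent along an embedding of a field of transcendence degree two -/
theorem T1_of_hom {k K L : Type u} [Field k] [Field K] [Field L] [Algebra k K] [Algebra k L]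
    {ℓ : ℕ} (hℓ : ℓ.Prime) (j : K →ₐ[k] L) (hess : Algebra.EssFiniteType k L)
    (hL : Algebra.trdeg k L ≤ 2) (ht : Algebra.trdeg k K = 2) (hT : T1 k L ℓ) : T1 k K ℓ := by
  let _ : Algebra K L := j.toRingHom.toAlgebra
  have _ : IsScalarTower k K L := IsScalarTower.of_algebraMap_eq (fun x => (j.commutes x).symm)
  have hadd := trdeg_add_eq k K (A := L)
  have h0 : Algebra.trdeg K L = 0 := by
    rw [ht] at hadd
    have h3 : Algebra.trdeg K L + 2 ≤ 0 + 2 := by rw [add_comm, hadd, zero_add]; exact hL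
    have h4 : Algebra.trdeg K L ≤ 0 := by
      refine (Cardinal.add_le_add_iff_of_lt_aleph0 ?_).1 h3
      exact_mod_cast Cardinal.natCast_lt_aleph0 (n := 2)
    exact nonpos_iff_eq_zero.1 h4
  have halg : Algebra.IsAlgebraic K L := trdeg_eq_zero_iff.1 h0
  have hess' : Algebra.EssFiniteType K L := Algebra.EssFiniteType.of_comp k K L
  have hfin : FiniteDimensional K L := Algebra.finite_of_essFiniteType_of_isAlgebraic
  exact T1.descend hℓ hT

/-! ### the field of a point -/

section point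

variable {k Ω : Type} [Field k] [Field Ω] [Algebra k Ω] {d : ℕ} [NeZero d] {T : Tab Ω d}

theorem P_smul (P : WB T →ₐ[Ω] Ω) (p : Polynomial Ω) (b : WB T) :
    P (p • b) = p.eval (P (WB.x T)) * P b := by
  rw [Algebra.smul_def, map_mul]
  congr 1
  have h1 : (P : WB T →+* Ω).comp (algebraMap (Polynomial Ω) (WB T)) = Polynomial.evalRingHom (P (WB.x T)) := by
    refine Polynomial.ringHom_ext (fun a => ?_) ?_
    · show P (algebraMap (Polynomial Ω) (WB T) (C a)) = (C a).eval _
      rw [eval_C, ← Polynomial.algebraMap_eq, ← IsScalarTower.algebraMap_apply]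
      exact P.commutes a
    · show P (algebraMap (Polynomial Ω) (WB T) X) = X.eval _
      rw [eval_X]
      rfl
  exact congrArg (fun g : (Polynomial Ω) →+* Ω => g p) h1

theorem cf_x : Cf (Set.range (algebraMap k Ω)) (WB.x T) := by
  intro j n
  rw [WB.x, WB.algebraMap_co]
  split_ifs
  · rw [coeff_X]
    split_ifs
    · exact ⟨1, map_one _⟩
    · exact ⟨0, map_zero _⟩
  · exact ⟨0, by rw [coeff_zero, map_zero]⟩

theorem cf_f (i : ZMod d) : Cf (Set.range (algebraMap k Ω)) (WB.f T i) := by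
  intro j n
  rw [WB.f_co]
  by_cases h : j = i
  · rw [h, Pi.single_eq_same, coeff_one]
    split_ifs
    · exact ⟨1, map_one _⟩
    · exact ⟨0, map_zero _⟩
  · rw [Pi.single_eq_of_ne h]
    exact ⟨0, by rw [coeff_zero, map_zero]⟩

theorem kP_eq (P : WB T →ₐ[Ω] Ω) : kP k P = IntermediateField.adjoin k
    (({P (WB.x T)} : Set Ω) ∪ Set.range (fun j => P (WB.f T j))) := by
  refine le_antisymm ?_ ?_
  · rw [kP, IntermediateField.adjoin_le_iff]
    rintro y ⟨b, hb, rfl⟩
    set E := IntermediateField.adjoin k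
      (({P (WB.x T)} : Set Ω) ∪ Set.range (fun j => P (WB.f T j))) with hE
    have hx : P (WB.x T) ∈ E := IntermediateField.subset_adjoin k _ (Or.inl rfl)
    rw [← WB.sum_f b, map_sum]
    refine sum_mem fun j _ => ?_
    rw [P_smul]
    refine mul_mem ?_ (IntermediateField.subset_adjoin k _ (Or.inr ⟨j, rfl⟩))
    rw [Polynomial.eval_eq_sum_range]
    refine sum_mem fun n _ => mul_mem ?_ (pow_mem hx n)
    obtain ⟨a, ha⟩ := hb j n
    rw [← ha]
    exact IntermediateField.algebraMap_mem _ a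
  · rw [IntermediateField.adjoin_le_iff]
    rintro y (hy | ⟨j, rfl⟩)
    · rw [Set.mem_singleton_iff.1 hy]
      exact IntermediateField.subset_adjoin k _ ⟨WB.x T, cf_x, rfl⟩
    · exact IntermediateField.subset_adjoin k _ ⟨WB.f T j, cf_f j, rfl⟩

theorem kP_fg (P : WB T →ₐ[Ω] Ω) : (kP k P).FG := by
  classical
  rw [kP_eq]
  refine ⟨(({P (WB.x T)} : Finset Ω) ∪ Finset.univ.image (fun j => P (WB.f T j))), ?_⟩
  congr 1
  push_cast
  rw [Set.image_univ]

theorem alg_f {T₀ : Tab k d} (h : T₀.map (algebraMap k Ω) = T) (P : WB T →ₐ[Ω] Ω) (b : WB T₀) :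
    IsAlgebraic (IntermediateField.adjoin k {P (WB.x T)}) (P (bmap (algebraMap k Ω) h b)) := by
  have hint : IsIntegral k[X] b := IsIntegral.of_finite k[X] b
  obtain ⟨q, hq, hqb⟩ := hint
  let ψ : WB T₀ →+* Ω := (P : WB T →+* Ω).comp (bmap (algebraMap k Ω) h)
  let E := IntermediateField.adjoin k {P (WB.x T)}
  let θ : E := ⟨P (WB.x T), IntermediateField.subset_adjoin k _ rfl⟩
  let g : k[X] →+* E := Polynomial.eval₂RingHom (algebraMap k E) θ
  have hg : (algebraMap E Ω).comp g = ψ.comp (algebraMap k[X] (WB T₀)) := by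
    refine Polynomial.ringHom_ext (fun a => ?_) ?_
    · show algebraMap E Ω (Polynomial.eval₂ (algebraMap k E) θ (C a)) =
        P (bmap (algebraMap k Ω) h (algebraMap k[X] (WB T₀) (C a)))
      rw [eval₂_C, ← IsScalarTower.algebraMap_apply k E Ω]
      refine (P.commutes (algebraMap k Ω a)).symm.trans ?_
      congr 1
      refine WB.ext (funext fun j => ?_)
      rw [WB.algebraMap_co']
      show _ = (((algebraMap k[X] (WB T₀) (C a)).co j).map (algebraMap k Ω))
      rw [WB.algebraMap_co]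
      split_ifs
      · rw [Polynomial.map_C]
      · rw [Polynomial.map_zero]
    · show algebraMap E Ω (Polynomial.eval₂ (algebraMap k E) θ X) =
        P (bmap (algebraMap k Ω) h (algebraMap k[X] (WB T₀) X))
      rw [eval₂_X]
      show P (WB.x T) = _
      congr 1
      refine WB.ext (funext fun j => ?_)
      rw [WB.x, WB.algebraMap_co]
      show _ = (((algebraMap k[X] (WB T₀) X).co j).map (algebraMap k Ω))
      rw [WB.algebraMap_co]
      split_ifs
      · rw [Polynomial.map_X]
      · rw [Polynomial.map_zero]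
  refine ⟨q.map g, (hq.map g).ne_zero, ?_⟩
  rw [Polynomial.aeval_def, Polynomial.eval₂_map, hg]
  have h1 := congrArg ψ hqb
  rw [map_zero, Polynomial.hom_eval₂] at h1
  exact h1

theorem kP_trdeg (hT : Tk k T) (P : WB T →ₐ[Ω] Ω) : Algebra.trdeg k (kP k P) ≤ 1 := by
  obtain ⟨T₀, h⟩ := hT
  rw [kP_eq]
  refine TSF.trdeg_adjoin_le (P (WB.x T)) _ ?_
  rintro a (ha | ⟨j, rfl⟩)
  · rw [Set.mem_singleton_iff.1 ha]
    exact isAlgebraic_algebraMap (⟨P (WB.x T), IntermediateField.subset_adjoin k _ rfl⟩ :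
      IntermediateField.adjoin k {P (WB.x T)})
  · have h1 := alg_f h P (WB.f T₀ j)
    have h2 : bmap (algebraMap k Ω) h (WB.f T₀ j) = WB.f T j := by
      refine WB.ext (funext fun i => ?_)
      show ((WB.f T₀ j).co i).map (algebraMap k Ω) = _
      rw [WB.f_co, WB.f_co]
      by_cases hij : i = j
      · rw [hij, Pi.single_eq_same, Pi.single_eq_same, Polynomial.map_one]
      · rw [Pi.single_eq_of_ne hij, Pi.single_eq_of_ne hij, Polynomial.map_zero]
    rwa [h2] at h1

end point

/-! ### the goal -/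

theorem Univ.of_finite {k k' Ω : Type} [Field k] [Field k'] [Finite k'] [Field Ω] [Algebra k k']
    [Algebra k Ω] [Algebra k' Ω] [IsScalarTower k k' Ω] (h : Univ k Ω) : Univ k' Ω := by
  classical
  intro S
  have := Fintype.ofFinite k'
  obtain ⟨t, ht⟩ := h (S ∪ Finset.univ.image (algebraMap k' Ω))
  refine ⟨t, ?_⟩
  rintro ⟨p, hp0, hp⟩
  refine ht ?_
  let E := IntermediateField.adjoin k ((S ∪ Finset.univ.image (algebraMap k' Ω) : Finset Ω) : Set Ω)
  have hle : ∀ x : Ω, x ∈ IntermediateField.adjoin k' (S : Set Ω) → x ∈ E := by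
    have hk' : ∀ x : k', algebraMap k' Ω x ∈ E := fun x =>
      IntermediateField.subset_adjoin k _ (by simp)
    let E' : IntermediateField k' Ω := { E.toSubfield with
      algebraMap_mem' := hk' }
    have : IntermediateField.adjoin k' (S : Set Ω) ≤ E' := by
      rw [IntermediateField.adjoin_le_iff]
      intro x hx
      exact IntermediateField.subset_adjoin k _ (by simp [Finset.mem_coe.1 hx])
    exact fun x hx => this hx
  let g : IntermediateField.adjoin k' (S : Set Ω) →+* E :=
    { toFun := fun x => ⟨x, hle x x.2⟩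
      map_one' := rfl
      map_zero' := rfl
      map_add' := fun _ _ => rfl
      map_mul' := fun _ _ => rfl }
  have hg : Function.Injective g := g.injective
  refine ⟨p.map g, (Polynomial.map_ne_zero_iff hg).2 hp0, ?_⟩
  rw [Polynomial.aeval_def, Polynomial.eval₂_map]
  exact hp

theorem goal_of (hTate : TateStmt) (hLink : LinkStmt) (hCrv : CrvStmt) : Goal := by
  intro k M _ _ _ _ _ K₁ K₂ hfg₁ hfg₂ h₁ h₂ ℓ hℓ hℓk
  have hle : Algebra.trdeg k (K₁ ⊔ K₂ : IntermediateField k M) ≤ 2 := trdeg_sup_le K₁ K₂ h₁ h₂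
  by_cases h : Algebra.trdeg k (K₁ ⊔ K₂ : IntermediateField k M) ≤ 1
  · exact t1_le_one h hℓ
  have h2 : Algebra.trdeg k (K₁ ⊔ K₂ : IntermediateField k M) = 2 := by
    have hlt : Algebra.trdeg k (K₁ ⊔ K₂ : IntermediateField k M) < Cardinal.aleph0 :=
      lt_of_le_of_lt hle (by exact_mod_cast Cardinal.natCast_lt_aleph0 (n := 2))
    obtain ⟨n, hn⟩ := Cardinal.lt_aleph0.1 hlt
    rw [hn] at hle h ⊢
    have h3 : n ≤ 2 := by exact_mod_cast hle
    have h4 : ¬ n ≤ 1 := fun h5 => h (by exact_mod_cast h5)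
    have h5 : n = 2 := by omega
    rw [h5]
    rfl
  obtain ⟨k', Ω, _, _, _, _, _, _, _, _, hU, d, _, T, _, hT, P, Q, ι, hP, hQ, hι⟩ :=
    hCrv k M K₁ K₂ hfg₁ hfg₂ h₁ h₂ h2
  have hℓ' : (ℓ : k') ≠ 0 := by
    intro h0
    apply hℓk
    have := (algebraMap k k').injective (a₁ := (ℓ : k)) (a₂ := 0) (by
      rw [map_natCast, map_zero]; exact h0)
    exact this
  have : Fact ℓ.Prime := ⟨hℓ⟩
  have hT1 : T1 k' (kP k' P ⊔ kP k' Q : IntermediateField k' Ω) ℓ := by
    refine hLink k' Ω hU d T hT ℓ hℓ' ?_ P Q hP hQ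
    intro k'' _ _ _ _ _ hT''
    refine hTate k'' Ω hU.of_finite d T hT'' ℓ ?_
    intro h0
    apply hℓ'
    exact (algebraMap k' k'').injective (a₁ := (ℓ : k')) (a₂ := 0) (by
      rw [map_natCast, map_zero]; exact h0)
  let L' : IntermediateField k' Ω := kP k' P ⊔ kP k' Q
  have hfin : Module.Finite k k' := inferInstance
  have halg : Algebra.IsAlgebraic k k' := inferInstance
  have hT2 : T1 k L' ℓ := T1_of_alg (k' := k') hT1
  let j : (K₁ ⊔ K₂ : IntermediateField k M) →ₐ[k] L' :=
    { toFun := fun x => ⟨ι x, hι x⟩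
      map_one' := Subtype.ext (map_one ι)
      map_zero' := Subtype.ext (map_zero ι)
      map_add' := fun x y => Subtype.ext (map_add ι x y)
      map_mul' := fun x y => Subtype.ext (map_mul ι x y)
      commutes' := fun x => Subtype.ext (ι.commutes x) }
  refine T1_of_hom hℓ j ?_ ?_ h2 hT2
  · have h5 : L'.FG := IntermediateField.fg_sup (kP_fg P) (kP_fg Q)
    have h6 : Algebra.EssFiniteType k' L' := IntermediateField.essFiniteType_iff.2 h5
    have h7 : Algebra.EssFiniteType k k' := inferInstance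
    exact Algebra.EssFiniteType.comp k k' L'
  · have h5 : Algebra.trdeg k' L' ≤ 2 := trdeg_sup_le _ _ (kP_trdeg hT P) (kP_trdeg hT Q)
    have h6 := trdeg_add_eq k k' (A := L')
    have h7 : Algebra.trdeg k k' = 0 := trdeg_eq_zero
    rw [← h6, h7, zero_add]
    exact h5

end TIF
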