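import Pool.Agent.TIF.Defs
import Pool.Agent.TIFA.DicDefs

/-!
# [TIF] END-A: the exact outputs of TORS, HON and PIG

These are the hypotheses of `Pool/Agent/TIF/EndA.lean`, which proves `Tate k T hT ℓ` and
`Semi k T hT ℓ` from them.
-/

set_option autoImplicit false
set_option linter.unusedSectionVars false

open Polynomial GT

namespace TIF

section

variable {k Ω : Type} [Field k] [Field Ω] [Algebra k Ω] {d : ℕ} [NeZero d] {T : Tab Ω d}
  [IsDedekindDomain (WB T)]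

theorem act_one (hT : Tk k T) (D : ClassGroup (WB T)) : act hT 1 D = D := by
  refine clm_id _ (fun b => ?_) D
  refine WB.ext (funext fun j => ?_)
  rw [rac, bE_co]
  refine Eq.trans ?_ (Polynomial.map_id (p := b.co j))
  congr 1

theorem act_mul (hT : Tk k T) (σ τ : Ω ≃ₐ[k] Ω) (D : ClassGroup (WB T)) :
    act hT (σ * τ) D = act hT σ (act hT τ D) := by
  refine (clm_clm (rac hT τ) (rac hT σ) (rac hT (σ * τ)) (fun b => ?_) D).symm
  refine WB.ext (funext fun j => ?_)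
  rw [rac, bE_co, rac, bE_co, rac, bE_co, Polynomial.map_map]
  congr 1

/-- The Jacobian, written additively. -/
def JJ (_ : Tk k T) : Type := Additive (ClassGroup (WB T))

noncomputable instance (hT : Tk k T) : AddCommGroup (JJ hT) :=
  inferInstanceAs (AddCommGroup (Additive (ClassGroup (WB T))))

/-- The element of the Jacobian. -/
def toJ (hT : Tk k T) (D : ClassGroup (WB T)) : JJ hT := Additive.ofMul D

/-- The divisor class. -/
def ofJ {hT : Tk k T} (x : JJ hT) : ClassGroup (WB T) := Additive.toMul x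

theorem ofJ_toJ (hT : Tk k T) (D : ClassGroup (WB T)) : ofJ (toJ hT D) = D := rfl

theorem toJ_ofJ {hT : Tk k T} (x : JJ hT) : toJ hT (ofJ x) = x := rfl

theorem toJ_mul (hT : Tk k T) (D E : ClassGroup (WB T)) : toJ hT (D * E) = toJ hT D + toJ hT E :=
  rfl

theorem toJ_one (hT : Tk k T) : toJ hT (1 : ClassGroup (WB T)) = 0 := rfl

theorem toJ_inv (hT : Tk k T) (D : ClassGroup (WB T)) : toJ hT D⁻¹ = -toJ hT D := rfl

theorem toJ_pow (hT : Tk k T) (D : ClassGroup (WB T)) (n : ℕ) : toJ hT (D ^ n) = n • toJ hT D :=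
  rfl

theorem ofJ_add {hT : Tk k T} (x y : JJ hT) : ofJ (x + y) = ofJ x * ofJ y := rfl

theorem ofJ_zero (hT : Tk k T) : ofJ (0 : JJ hT) = 1 := rfl

theorem ofJ_nsmul {hT : Tk k T} (n : ℕ) (x : JJ hT) : ofJ (n • x) = ofJ x ^ n := rfl

theorem toJ_inj {hT : Tk k T} {D E : ClassGroup (WB T)} (h : toJ hT D = toJ hT E) : D = E := h

/-- The automorphisms of `Ω / k` act on the Jacobian. -/
noncomputable instance (hT : Tk k T) : DistribMulAction (Ω ≃ₐ[k] Ω) (JJ hT) where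
  smul σ x := toJ hT (act hT σ (ofJ x))
  one_smul x := act_one hT (ofJ x)
  mul_smul σ τ x := act_mul hT σ τ (ofJ x)
  smul_zero σ := map_one (act hT σ)
  smul_add σ x y := map_mul (act hT σ) (ofJ x) (ofJ y)

theorem smul_toJ (hT : Tk k T) (σ : Ω ≃ₐ[k] Ω) (D : ClassGroup (WB T)) :
    σ • toJ hT D = toJ hT (act hT σ D) := rfl

theorem ofJ_smul {hT : Tk k T} (σ : Ω ≃ₐ[k] Ω) (x : JJ hT) : ofJ (σ • x) = act hT σ (ofJ x) := rfl

/-- An additive endomorphism of `JJ hT` as an endomorphism of the class group. -/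
noncomputable def toV {hT : Tk k T} (f : AddMonoid.End (JJ hT)) : ClassGroup (WB T) →* ClassGroup (WB T) where
  toFun D := ofJ (f (toJ hT D))
  map_one' := by rw [toJ_one, map_zero, ofJ_zero]
  map_mul' D E := by rw [toJ_mul, map_add, ofJ_add]

theorem toV_apply {hT : Tk k T} (f : AddMonoid.End (JJ hT)) (D : ClassGroup (WB T)) :
    toV f D = ofJ (f (toJ hT D)) := rfl

/-- An endomorphism of the class group as an additive endomorphism of `JJ hT`. -/
noncomputable def ofV (hT : Tk k T) (v : ClassGroup (WB T) →* ClassGroup (WB T)) : AddMonoid.End (JJ hT) where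
  toFun x := toJ hT (v (ofJ x))
  map_zero' := by rw [ofJ_zero, map_one, toJ_one]
  map_add' x y := by rw [ofJ_add, map_mul, toJ_mul]

theorem ofV_apply (hT : Tk k T) (v : ClassGroup (WB T) →* ClassGroup (WB T)) (x : JJ hT) :
    ofV hT v x = toJ hT (v (ofJ x)) := rfl

theorem toV_ofV (hT : Tk k T) (v : ClassGroup (WB T) →* ClassGroup (WB T)) :
    toV (ofV hT v) = v := rfl

/-- The pairing on `J[ℓ ^ n]`, on `JJ hT`. -/
def eJ (hT : Tk k T) (ℓ : ℕ) (e : ℕ → ClassGroup (WB T) → ClassGroup (WB T) → Ω) (n : ℕ)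
    (x y : JJ hT) : Ω := e (ℓ ^ n) (ofJ x) (ofJ y)

end

section

variable (k : Type) {Ω : Type} [Field k] [Field Ω] [Algebra k Ω] {d : ℕ} [NeZero d] {T : Tab Ω d}

/-- `φ` is a Frobenius automorphism of `Ω` over the finite field `k`. -/
def IsFrob (φ : Ω ≃ₐ[k] Ω) : Prop := ∀ x ∈ kb k Ω, φ x = x ^ Nat.card k

/-- **Output of TORS.** `e N` is the pairing on `J[N]`. -/
structure TorsOut [IsDedekindDomain (WB T)] (hT : Tk k T) (ℓ : ℕ) [Fact ℓ.Prime]
    (e : ℕ → ClassGroup (WB T) → ClassGroup (WB T) → Ω) : Prop where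
  /-- the Jacobian is `ℓ`-divisible -/
  div : ∀ D : ClassGroup (WB T), ∃ E, E ^ ℓ = D
  /-- there is a Frobenius -/
  frob : ∃ φ : Ω ≃ₐ[k] Ω, IsFrob k φ
  /-- on `J[ℓ ^ n]` every automorphism is a power of the Frobenius -/
  pro : ∀ φ : Ω ≃ₐ[k] Ω, IsFrob k φ → ∀ (σ : Ω ≃ₐ[k] Ω) (n : ℕ), ∃ m : ℕ,
    ∀ D : ClassGroup (WB T), D ^ ℓ ^ n = 1 → act hT σ D = act hT (φ ^ m) D
  /-- the pairing in coordinates -/
  pair : ∀ (h : ℕ) (tau : ℕ → (Fin h → ℤ_[ℓ]) → ClassGroup (WB T)), TB T ℓ h tau →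
    ∃ (zeta : ℕ → Ω) (E : Matrix (Fin h) (Fin h) ℤ_[ℓ]),
      (∀ n, zeta (n + 1) ^ ℓ = zeta n) ∧ (∀ n, IsPrimitiveRoot (zeta n) (ℓ ^ n)) ∧
      IsUnit E.det ∧ E.transpose = -E ∧
      (∀ n x y, e (ℓ ^ n) (tau n x) (tau n y) =
        zeta n ^ (PadicInt.toZModPow n (x ⬝ᵥ E.mulVec y)).val) ∧
      (∀ φ : Ω ≃ₐ[k] Ω, IsFrob k φ → ∀ R : Matrix (Fin h) (Fin h) ℤ_[ℓ],
        (∀ n x, act hT φ (tau n x) = tau n (R.mulVec x)) →
          R.transpose * E * R = (Nat.card k : ℤ_[ℓ]) • E)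

/-- `v` is an honest endomorphism over `k`: it commutes with the automorphisms and maps `K`-rational
classes to `K`-rational classes, for all fields `K` between `k` and `Ω`. -/
structure HonA [IsAlgClosed Ω] [IsDedekindDomain (WB T)] (hT : Tk k T)
    (v : ClassGroup (WB T) →* ClassGroup (WB T)) : Prop where
  equ : ∀ (σ : Ω ≃ₐ[k] Ω) (D : ClassGroup (WB T)), v (act hT σ D) = act hT σ (v D)
  all : ∀ (K : IntermediateField k Ω) (D : ClassGroup (WB T)),
    D ∈ JK (T := T) (K : Set Ω) → v D ∈ JK (T := T) (K : Set Ω)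

/-- **Output of HON**: the honest endomorphisms are an `ℓ`-saturated ring. -/
structure HonOut [IsAlgClosed Ω] [IsDedekindDomain (WB T)] (hT : Tk k T) (ℓ : ℕ) : Prop where
  one_mem : ∀ K : IntermediateField k Ω, (1 : ClassGroup (WB T)) ∈ JK (T := T) (K : Set Ω)
  mul_mem : ∀ (K : IntermediateField k Ω) (D E : ClassGroup (WB T)),
    D ∈ JK (T := T) (K : Set Ω) → E ∈ JK (T := T) (K : Set Ω) → D * E ∈ JK (T := T) (K : Set Ω)
  inv_mem : ∀ (K : IntermediateField k Ω) (D : ClassGroup (WB T)),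
    D ∈ JK (T := T) (K : Set Ω) → D⁻¹ ∈ JK (T := T) (K : Set Ω)
  iot_mem : ∀ P : WB T →ₐ[Ω] Ω, GenP k ⊥ P → iot P ∈ JK (T := T) (kP k P : Set Ω)
  sat : ∀ v : ClassGroup (WB T) →* ClassGroup (WB T), HonA k hT (v ^ ℓ) → HonA k hT v

/-- **Output of PIG.** `S m a` says that the matrix `a` of honest endomorphisms is a similitude with
multiplier `ℓ ^ (2 m)`. -/
def PigOut [IsAlgClosed Ω] [IsDedekindDomain (WB T)] (hT : Tk k T) (ℓ : ℕ)
    (e : ℕ → ClassGroup (WB T) → ClassGroup (WB T) → Ω) : Prop :=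
  ∃ S : ℕ → Matrix (Fin 8) (Fin 8) (AddMonoid.End (JJ hT)) → Prop,
    (∀ m a, S m a → ∀ r s, HonA k hT (toV (a r s))) ∧ S 0 1 ∧
    (∀ m n a b, S m a → S n b → S (m + n) (a * b)) ∧
    (∀ m a, (∀ r s, HonA k hT (toV (a r s))) → S m (ℓ ^ m • a) → S 0 a) ∧
    {a | S 0 a}.Finite ∧
    ∃ N : ℕ, ∀ f : Fin (N + 1) → Pool.Agent.TIFA.Lag ℓ (Ω ≃ₐ[k] Ω) (Fin 8) (eJ hT ℓ e),
      ∃ i j, i < j ∧ Pool.Agent.TIFA.Lk S (f i) (f j)

end

end TIF
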