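import Pool.Agent.TIF.Top
import Pool.Agent.TIFL.H4
import Pool.Agent.TIFCRV.Ded

/-!
# [TIF] the goal from Tate's theorem
-/

set_option autoImplicit false

namespace TIF

theorem goal_of_tate (h : TateStmt) : Goal := goal_of h TIFL.link TIFCRV.crvStmt

end TIF
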