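import Pool.Agent.TIF.EndADefs
import Pool.Agent.TIF.Stmt
import Pool.Agent.TIFA.Dic3
import Pool.Agent.TIFB.Beta

/-!
# [TIF] END-A: `Tate` and `Semi` from the outputs of TORS, HON and PIG
-/

set_option autoImplicit false
set_option linter.unusedSectionVars false

open Polynomial GT

namespace TIF

open Pool.Agent.TIFA (IV IsPar mat mat_spec mat_int mat_eq KN Sm ell_ne exists_pow_mul_le)
open Pool.Agent.TIFB


section

variable {k Ω : Type} [Field k] [Field Ω] [Algebra k Ω] {d : ℕ} [NeZero d] {T : Tab Ω d}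
  [IsDedekindDomain (WB T)] {ℓ : ℕ} [Fact ℓ.Prime] {h : ℕ}
  {tau : ℕ → (Fin h → ℤ_[ℓ]) → ClassGroup (WB T)}

theorem TB.ts (H : TB T ℓ h tau) : TS ℓ h tau := ⟨H.add, H.step, H.ker⟩

/-- The parametrization of the `ℓ`-power torsion by `ℚ_ℓ ^ h`. -/
noncomputable def beta (hT : Tk k T) (H : TB T ℓ h tau) : (Fin h → ℚ_[ℓ]) →+ JJ hT :=
  betaS H.ts

theorem beta_tau (hT : Tk k T) (H : TB T ℓ h tau) (n : ℕ) (x : Fin h → ℤ_[ℓ]) :
    beta hT H (fun i => ((ℓ : ℚ_[ℓ]) ^ n)⁻¹ * (x i : ℚ_[ℓ])) = toJ hT (tau n x) :=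
  betaS_tau H.ts n x

theorem beta_isPar (hT : Tk k T) (H : TB T ℓ h tau) : IsPar (beta hT H) := by
  constructor
  · intro v
    exact betaS_ker H.ts v
  · intro x n hx
    obtain ⟨y, hy⟩ := H.sur n (ofJ x) (by rw [← ofJ_nsmul, hx, ofJ_zero])
    exact ⟨_, by rw [beta_tau, hy, toJ_ofJ]⟩

/-- Integral matrices and `ℓ`-adic matrices of endomorphisms. -/
theorem qM_iff (hT : Tk k T) (H : TB T ℓ h tau) (f : JJ hT →+ JJ hT)
    (M : Matrix (Fin h) (Fin h) ℤ_[ℓ]) :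
    (∀ v, f (beta hT H v) = beta hT H ((qM M).mulVec v)) ↔
      ∀ n x, f (toJ hT (tau n x)) = toJ hT (tau n (M.mulVec x)) := by
  constructor
  · intro h1 n x
    rw [← beta_tau hT H, h1, qM_mulVec, beta_tau]
  · intro h1 v
    obtain ⟨n, hn⟩ := exists_IV v
    have h2 : v = fun i => ((ℓ : ℚ_[ℓ]) ^ n)⁻¹ * ((toI ((ℓ : ℚ_[ℓ]) ^ n * v i) : ℤ_[ℓ]) : ℚ_[ℓ]) := by
      funext i
      rw [coe_toI' hn i, inv_mul_cancel_left₀ (pow_ne_zero _ ell_ne)]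
    rw [h2, beta_tau, h1, qM_mulVec, beta_tau]

/-- The additive endomorphism given by an automorphism. -/
noncomputable def sgA (hT : Tk k T) (σ : Ω ≃ₐ[k] Ω) : JJ hT →+ JJ hT :=
  DistribSMul.toAddMonoidHom (JJ hT) σ

theorem sgA_apply (hT : Tk k T) (σ : Ω ≃ₐ[k] Ω) (x : JJ hT) : sgA hT σ x = σ • x := rfl

end


section final

variable {k Ω : Type} [Field k] [Field Ω] [Algebra k Ω] {d : ℕ} [NeZero d] {T : Tab Ω d}
  [IsAlgClosed Ω] [IsDedekindDomain (WB T)]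

/-- The ring of honest endomorphisms. -/
noncomputable def honR (hT : Tk k T) {ℓ : ℕ} (hO : HonOut k hT ℓ) :
    Subring (AddMonoid.End (JJ hT)) where
  carrier := {f | HonA k hT (toV f)}
  mul_mem' := by
    intro f g hf hg
    refine ⟨fun σ D => ?_, fun K D hD => ?_⟩
    · change toV f (toV g (act hT σ D)) = act hT σ (toV f (toV g D))
      rw [hg.equ, hf.equ]
    · exact hf.all K _ (hg.all K D hD)
  one_mem' := ⟨fun _ _ => rfl, fun _ _ hD => hD⟩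
  add_mem' := by
    intro f g hf hg
    refine ⟨fun σ D => ?_, fun K D hD => ?_⟩
    · change toV f (act hT σ D) * toV g (act hT σ D) = act hT σ (toV f D * toV g D)
      rw [hg.equ, hf.equ, map_mul]
    · exact hO.mul_mem K _ _ (hf.all K D hD) (hg.all K D hD)
  zero_mem' := ⟨fun σ _ => (map_one (act hT σ)).symm, fun K _ _ => hO.one_mem K⟩
  neg_mem' := by
    intro f hf
    refine ⟨fun σ D => ?_, fun K D hD => ?_⟩
    · change (toV f (act hT σ D))⁻¹ = act hT σ (toV f D)⁻¹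
      rw [hf.equ, map_inv]
    · exact hO.inv_mem K _ (hf.all K D hD)

theorem mem_honR (hT : Tk k T) {ℓ : ℕ} (hO : HonOut k hT ℓ) (f : AddMonoid.End (JJ hT)) :
    f ∈ honR hT hO ↔ HonA k hT (toV f) := Iff.rfl

theorem HonA.hon {hT : Tk k T} {ℓ : ℕ} (hO : HonOut k hT ℓ)
    {v : ClassGroup (WB T) →* ClassGroup (WB T)} (hv : HonA k hT v) : Hon k hT v :=
  ⟨hv.equ, fun P hP => hv.all (kP k P) _ (hO.iot_mem P hP)⟩

variable {ℓ : ℕ} [Fact ℓ.Prime]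

/-- **END-A.** -/
theorem end_A [Finite k] (hT : Tk k T)
    (e : ℕ → ClassGroup (WB T) → ClassGroup (WB T) → Ω) (hTO : TorsOut k hT ℓ e)
    (hO : HonOut k hT ℓ) (hP : PigOut k hT ℓ e) {h : ℕ}
    {tau : ℕ → (Fin h → ℤ_[ℓ]) → ClassGroup (WB T)} (H : TB T ℓ h tau) (φ : Ω ≃ₐ[k] Ω)
    (hφ : IsFrob k φ) (R : Matrix (Fin h) (Fin h) ℤ_[ℓ])
    (hR : ∀ n x, act hT φ (tau n x) = tau n (R.mulVec x)) :
    (∀ M : Matrix (Fin h) (Fin h) ℚ_[ℓ], M * qM R = qM R * M →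
      M ∈ Submodule.span ℚ_[ℓ] {m | ∃ f ∈ honR hT hO,
        mat (beta_isPar hT H) (beta_isPar hT H) f = m}) ∧
      Squarefree (minpoly ℚ_[ℓ] (qM R)) := by
  classical
  have hl0 := ell_ne (ℓ := ℓ)
  obtain ⟨zeta, E, hzs, hzp, hEu, hEt, hpair, hsim⟩ := hTO.pair h tau H
  have hRE := hsim φ hφ R hR
  -- the cardinality of `k` is not zero in `ℚ_ℓ`
  have hq : ((Nat.card k : ℕ) : ℚ_[ℓ]) ≠ 0 := by
    have : Nat.card k ≠ 0 := Nat.card_pos.ne'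
    exact_mod_cast this
  -- matrices
  let rm : Matrix (Fin h) (Fin h) ℤ_[ℓ] →+* Matrix (Fin h) (Fin h) ℚ_[ℓ] :=
    (PadicInt.Coe.ringHom (p := ℓ)).mapMatrix
  have hrm : ∀ M, rm M = qM M := fun M => rfl
  have hEunit : IsUnit E := (Matrix.isUnit_iff_isUnit_det E).2 hEu
  obtain ⟨uE, huE⟩ := hEunit
  let ψ : GL (Fin h) ℚ_[ℓ] := Units.map (rm : Matrix (Fin h) (Fin h) ℤ_[ℓ] →* _) uE
  have hψv : (ψ : Matrix (Fin h) (Fin h) ℚ_[ℓ]) = qM E := by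
    change rm (uE : Matrix (Fin h) (Fin h) ℤ_[ℓ]) = _
    rw [huE, hrm]
  have hψi : ((ψ⁻¹ : GL (Fin h) ℚ_[ℓ]) : Matrix (Fin h) (Fin h) ℚ_[ℓ])
      = qM ((uE⁻¹ : (Matrix (Fin h) (Fin h) ℤ_[ℓ])ˣ) : Matrix (Fin h) (Fin h) ℤ_[ℓ]) := rfl
  have hqSm : ∀ M : Matrix (Fin h) (Fin h) ℤ_[ℓ], Sm 0 (qM M) := by
    intro M i j
    rw [Nat.cast_zero, neg_zero, zpow_zero]
    exact (M i j).2
  have hψK : ψ ∈ KN ℓ (Fin h) 0 :=
    Pool.Agent.TIFA.mem_KN_zero (by rw [hψv]; exact hqSm _) (by rw [hψi]; exact hqSm _)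
  have hψt : (ψ : Matrix (Fin h) (Fin h) ℚ_[ℓ]).transpose = -(ψ : Matrix (Fin h) (Fin h) ℚ_[ℓ]) := by
    rw [hψv]
    have h1 : qM E.transpose = qM (-E) := by rw [hEt]
    have h2 : qM (-E) = -qM E := map_neg rm E
    rw [h2] at h1
    exact h1
  have hFeq : (qM R).transpose * (ψ : Matrix (Fin h) (Fin h) ℚ_[ℓ]) * qM R
      = ((Nat.card k : ℕ) : ℚ_[ℓ]) • (ψ : Matrix (Fin h) (Fin h) ℚ_[ℓ]) := by
    rw [hψv]
    have h1 := congrArg rm hRE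
    rw [map_mul, map_mul, hrm, hrm, hrm] at h1
    have h2 : rm ((Nat.card k : ℤ_[ℓ]) • E) = ((Nat.card k : ℕ) : ℚ_[ℓ]) • qM E := by
      ext i j
      change ((((Nat.card k : ℕ) : ℤ_[ℓ]) * E i j : ℤ_[ℓ]) : ℚ_[ℓ]) = ((Nat.card k : ℕ) : ℚ_[ℓ]) * _
      rw [PadicInt.coe_mul, PadicInt.coe_natCast]
      rfl
    rw [h2] at h1
    exact h1
  have hleft : (((Nat.card k : ℕ) : ℚ_[ℓ])⁻¹ • (((ψ⁻¹ : GL (Fin h) ℚ_[ℓ]) :
      Matrix (Fin h) (Fin h) ℚ_[ℓ]) * (qM R).transpose * (ψ : Matrix (Fin h) (Fin h) ℚ_[ℓ]))) * qM R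
      = 1 := by
    rw [smul_mul_assoc, mul_assoc, mul_assoc, ← mul_assoc (qM R).transpose, hFeq, mul_smul_comm,
      smul_smul, inv_mul_cancel₀ hq, one_smul, ← Units.val_mul, inv_mul_cancel, Units.val_one]
  let F : GL (Fin h) ℚ_[ℓ] := ⟨qM R, _, mul_eq_one_comm.1 hleft, hleft⟩
  have hFv : (F : Matrix (Fin h) (Fin h) ℚ_[ℓ]) = qM R := rfl
  -- the Frobenius
  have hFβ : ∀ v, φ • beta hT H v = beta hT H ((F : Matrix (Fin h) (Fin h) ℚ_[ℓ]).mulVec v) := by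
    intro v
    rw [← sgA_apply, hFv]
    refine (qM_iff hT H (sgA hT φ) R).2 ?_ v
    intro n x
    rw [sgA_apply, smul_toJ, hR]
  have hpro : ∀ (σ : Ω ≃ₐ[k] Ω) (n : ℕ), ∃ m : ℕ, ∀ x : JJ hT, ℓ ^ n • x = 0 →
      σ • x = φ ^ m • x := by
    intro σ n
    obtain ⟨m, hm⟩ := hTO.pro φ hφ σ n
    refine ⟨m, fun x hx => ?_⟩
    have h1 := hm (ofJ x) (by rw [← ofJ_nsmul, hx, ofJ_zero])
    exact congrArg (toJ hT) h1
  -- the pairing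
  have he : ∀ (n : ℕ) (v w : Fin h → ℚ_[ℓ]), IV ((ℓ : ℚ_[ℓ]) ^ n • v) →
      IV ((ℓ : ℚ_[ℓ]) ^ n • w) → eJ hT ℓ e n (beta hT H v) (beta hT H w) =
        chi hzp hzs (Multiplicative.ofAdd ((ℓ : ℚ_[ℓ]) ^ n *
          (v ⬝ᵥ ((ψ : Matrix (Fin h) (Fin h) ℚ_[ℓ]).mulVec w)))) := by
    intro n v w hv hw
    have hx : ∀ v : Fin h → ℚ_[ℓ], IV ((ℓ : ℚ_[ℓ]) ^ n • v) →
        v = fun i => ((ℓ : ℚ_[ℓ]) ^ n)⁻¹ * ((toI ((ℓ : ℚ_[ℓ]) ^ n * v i) : ℤ_[ℓ]) : ℚ_[ℓ]) := by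
      intro v hv
      funext i
      rw [coe_toI' hv i, inv_mul_cancel_left₀ (pow_ne_zero _ hl0)]
    obtain ⟨x, hx'⟩ : ∃ x : Fin h → ℤ_[ℓ], v = fun i => ((ℓ : ℚ_[ℓ]) ^ n)⁻¹ * (x i : ℚ_[ℓ]) :=
      ⟨_, hx v hv⟩
    obtain ⟨y, hy'⟩ : ∃ y : Fin h → ℤ_[ℓ], w = fun i => ((ℓ : ℚ_[ℓ]) ^ n)⁻¹ * (y i : ℚ_[ℓ]) :=
      ⟨_, hx w hw⟩
    have h1 : (ℓ : ℚ_[ℓ]) ^ n * (v ⬝ᵥ ((ψ : Matrix (Fin h) (Fin h) ℚ_[ℓ]).mulVec w))
        = ((ℓ : ℚ_[ℓ]) ^ n)⁻¹ * ((x ⬝ᵥ E.mulVec y : ℤ_[ℓ]) : ℚ_[ℓ]) := by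
      rw [hψv, hx', hy', qM_mulVec, dotProduct, dotProduct, PadicInt.coe_sum, Finset.mul_sum,
        Finset.mul_sum]
      refine Finset.sum_congr rfl fun i _ => ?_
      rw [PadicInt.coe_mul]
      field_simp
    rw [h1, chi_eq, hx', hy', beta_tau, beta_tau]
    exact hpair n x y
  obtain ⟨S, hS1, hS2, hS3, hS4, hS5, hS6⟩ := hP
  have hdiv : ∀ x : JJ hT, ∃ y, ℓ • y = x := by
    intro x
    obtain ⟨E', hE'⟩ := hTO.div (ofJ x)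
    exact ⟨toJ hT E', by rw [← toJ_pow, hE', toJ_ofJ]⟩
  have hG : ∀ f ∈ honR hT hO, ∀ (σ : Ω ≃ₐ[k] Ω) (x : JJ hT), f (σ • x) = σ • f x := by
    intro f hf σ x
    exact congrArg (toJ hT) (hf.equ σ (ofJ x))
  have hsat : ∀ f : AddMonoid.End (JJ hT), ℓ • f ∈ honR hT hO → f ∈ honR hT hO := by
    intro f hf
    refine hO.sat (toV f) ?_
    have h1 : toV (ℓ • f) = toV f ^ ℓ := rfl
    rw [← h1]
    exact hf
  have hres := Pool.Agent.TIFA.dic (beta hT H) (beta_isPar hT H) φ F hFβ hpro ψ hψK hψt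
    ((Nat.card k : ℕ) : ℚ_[ℓ]) hq hFeq (eJ hT ℓ e) (chi hzp hzs) (chi_eq_one hzp hzs) he hdiv
    (honR hT hO) hG hsat S hS1 hS2 hS3 hS4 hS5 hS6
  exact hres

/-- **END-A**: Tate's theorem from the outputs of TORS, HON and PIG. -/
theorem tate_semi [Finite k] (hT : Tk k T)
    (e : ℕ → ClassGroup (WB T) → ClassGroup (WB T) → Ω) (hTO : TorsOut k hT ℓ e)
    (hO : HonOut k hT ℓ) (hP : PigOut k hT ℓ e) : Tate k T hT ℓ ∧ Semi k T hT ℓ := by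
  classical
  have hl0 := ell_ne (ℓ := ℓ)
  have hex : ∀ {h : ℕ} {tau : ℕ → (Fin h → ℤ_[ℓ]) → ClassGroup (WB T)} (H : TB T ℓ h tau)
      (f : AddMonoid.End (JJ hT)), ∃ A : Matrix (Fin h) (Fin h) ℤ_[ℓ],
        qM A = mat (beta_isPar hT H) (beta_isPar hT H) f ∧
        ∀ n x, toV f (tau n x) = tau n (A.mulVec x) := by
    intro h tau H f
    obtain ⟨A, hA⟩ := exists_qM (mat_int (beta_isPar hT H) (beta_isPar hT H) f)
    refine ⟨A, hA, fun n x => ?_⟩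
    have h1 := (qM_iff hT H f A).1 (fun v => by rw [hA]; exact mat_spec _ _ f v) n x
    exact toJ_inj h1
  constructor
  · intro h tau H M hM
    obtain ⟨φ, hφ⟩ := hTO.frob
    obtain ⟨R, hR1, hR2⟩ := hex H (sgA hT φ)
    have hR : ∀ n x, act hT φ (tau n x) = tau n (R.mulVec x) := hR2
    have hcomm : qM M * qM R = qM R * qM M := by
      have h1 := hM φ R hR
      have h2 := congrArg (PadicInt.Coe.ringHom (p := ℓ)).mapMatrix h1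
      rw [map_mul, map_mul] at h2
      exact h2
    have hmem := (end_A hT e hTO hO hP H φ hφ R hR).1 (qM M) hcomm
    rw [Submodule.mem_span_set'] at hmem
    obtain ⟨m, c, g, hsum⟩ := hmem
    choose f hf hfm using fun i => (g i).2
    choose A hA1 hA2 using fun i => hex H (f i)
    -- common denominator
    obtain ⟨s, hs⟩ := exists_IV c
    refine ⟨s, m, fun i => toV (f i), A, fun i => toI ((ℓ : ℚ_[ℓ]) ^ s * c i),
      fun i => HonA.hon hO (hf i), hA2, ?_⟩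
    apply qM_inj
    have h3 : qM ((ℓ : ℤ_[ℓ]) ^ s • M) = (ℓ : ℚ_[ℓ]) ^ s • qM M := by
      ext i j
      change (((ℓ : ℤ_[ℓ]) ^ s * M i j : ℤ_[ℓ]) : ℚ_[ℓ]) = _
      rw [PadicInt.coe_mul, PadicInt.coe_pow, PadicInt.coe_natCast]
      rfl
    have h4 : qM (∑ i, toI ((ℓ : ℚ_[ℓ]) ^ s * c i) • A i)
        = ∑ i, ((ℓ : ℚ_[ℓ]) ^ s * c i) • qM (A i) := by
      have h5 : qM (∑ i, toI ((ℓ : ℚ_[ℓ]) ^ s * c i) • A i)
          = ∑ i, qM (toI ((ℓ : ℚ_[ℓ]) ^ s * c i) • A i) :=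
        map_sum (PadicInt.Coe.ringHom (p := ℓ)).mapMatrix _ _
      rw [h5]
      refine Finset.sum_congr rfl fun i _ => ?_
      ext a b
      change ((toI ((ℓ : ℚ_[ℓ]) ^ s * c i) * A i a b : ℤ_[ℓ]) : ℚ_[ℓ]) = _
      rw [PadicInt.coe_mul, coe_toI' hs i]
      rfl
    rw [h3, h4, ← hsum, Finset.smul_sum]
    refine Finset.sum_congr rfl fun i _ => ?_
    rw [smul_smul, hA1, hfm]
  · intro h tau H σ hσ R hR M hM
    have hsq := (end_A hT e hTO hO hP H σ hσ R hR).2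
    apply qM_inj
    have hm : ∀ A B : Matrix (Fin h) (Fin h) ℤ_[ℓ], qM (A * B) = qM A * qM B := fun A B =>
      map_mul (PadicInt.Coe.ringHom (p := ℓ)).mapMatrix A B
    have hsb : ∀ A B : Matrix (Fin h) (Fin h) ℤ_[ℓ], qM (A - B) = qM A - qM B := fun A B =>
      map_sub (PadicInt.Coe.ringHom (p := ℓ)).mapMatrix A B
    have h1 := congrArg qM hM
    rw [hm, hm, hsb, hm, hm] at h1
    rw [hm, hm]
    exact (Pool.Agent.TIFA.comm_of_squarefree (qM R) hsq (qM M) h1).symm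

end final

/-- The statement of the inputs. -/
def EndAInput : Prop :=
  ∀ (k Ω : Type) [Field k] [Finite k] [Field Ω] [Algebra k Ω] [IsAlgClosed Ω] (_ : Univ k Ω)
    (d : ℕ) [NeZero d] (T : Tab Ω d) [IsDedekindDomain (WB T)] (hT : Tk k T)
    (ℓ : ℕ) [Fact ℓ.Prime] (_ : (ℓ : k) ≠ 0),
    ∃ e : ℕ → ClassGroup (WB T) → ClassGroup (WB T) → Ω,
      TorsOut k hT ℓ e ∧ HonOut k hT ℓ ∧ PigOut k hT ℓ e

theorem tateStmt_of (h : EndAInput) : TateStmt := by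
  intro k Ω _ _ _ _ _ hU d _ T _ hT ℓ _ hℓ
  obtain ⟨e, h1, h2, h3⟩ := h k Ω hU d T hT ℓ hℓ
  exact tate_semi hT e h1 h2 h3

end TIF
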