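import Pool.Agent.TIF.Use
import Pool.Agent.TIF.Final
import Pool.Agent.TIFG.Tate

/-!
# [TIF] the goal: over a finite field the group `V_ℓ` of a product of two curves is zero
-/

set_option autoImplicit false

namespace TIF

/-- **The theorem of Tate**: if `k` is finite, `T_ℓ Br(K k^s)` has no unramified invariant elements
but zero, where `K = K₁ K₂` is the function field of a product of two curves. -/
theorem goal : Goal := goal_of_tate TIFG.tateStmt

end TIF
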