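import Pool.Agent.TIF.Top
import Pool.Agent.NOC.Emb

/-!
# [TIF] fields whose groups `V_ℓ` embed in those of products of curves
-/

set_option autoImplicit false

namespace TIF

open Pool.Agent.T1B Pool.Agent.NOC Pool.Agent.TBR

theorem alg_mono {k M : Type} [Field k] [Field M] [Algebra k M] {A B : IntermediateField k M}
    (h : A ≤ B) {x : M} (hx : IsAlgebraic A x) : IsAlgebraic B x := by
  obtain ⟨p, hp0, hp⟩ := hx
  refine ⟨p.map (IntermediateField.inclusion h : A →+* B),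
    (Polynomial.map_ne_zero_iff (IntermediateField.inclusion_injective h)).2 hp0, ?_⟩
  rw [Polynomial.aeval_def, Polynomial.eval₂_map]
  exact hp

theorem fg_one {k M : Type} [Field k] [Field M] [Algebra k M] (x : M) :
    (IntermediateField.adjoin k {x}).FG :=
  ⟨{x}, by rw [Finset.coe_singleton]⟩

theorem trdeg_one {k M : Type} [Field k] [Field M] [Algebra k M] (x : M) :
    Algebra.trdeg k (IntermediateField.adjoin k {x}) ≤ 1 := by
  refine Pool.Agent.TSF.trdeg_adjoin_le x _ ?_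
  intro a ha
  rw [Set.mem_singleton_iff.1 ha]
  exact isAlgebraic_algebraMap (⟨x, IntermediateField.subset_adjoin k _ rfl⟩ :
    IntermediateField.adjoin k {x})

/-- The factors which are zero can be left out. -/
theorem embeds_sub {k M : Type} [Field k] [Field M] [Algebra k M] [IsAlgClosed M]
    {K : IntermediateField k M} {ℓ : ℕ} {m : ℕ} (L : Fin m → IntermediateField k M)
    {n : ℕ} (ι : Fin n → Fin m)
    (h : ∀ i, (∃ j, ι j = i) ∨ (T1 k (L i) ℓ ∧ ∀ x : M, IsAlgebraic (L i) x))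
    (hE : Embeds k ℓ K L) : Embeds k ℓ K fun j => L (ι j) := by
  obtain ⟨Ψ, h1, h2, h3⟩ := hE
  refine ⟨fun c j => Ψ c (ι j), fun c hc j => h1 c hc (ι j), fun c c' hc hc' j n =>
    h2 c c' hc hc' (ι j) n, fun c hc => ⟨fun hall => (h3 c hc).1 fun i n => ?_, fun hall j n =>
    (h3 c hc).2 hall (ι j) n⟩⟩
  rcases h i with ⟨j, rfl⟩ | ⟨ht, ha⟩
  · exact hall j n
  · have halg' : Algebra.IsAlgebraic (L i) M := ⟨ha⟩
    exact (t1_iff k (L i) M ℓ).1 ht _ (h1 c hc i) n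

/-- The subfamily of the `i` with `S i`. -/
theorem exists_sub {m : ℕ} (S : Fin m → Prop) : ∃ (n : ℕ) (ι : Fin n → Fin m),
    (∀ j, S (ι j)) ∧ ∀ i, S i → ∃ j, ι j = i := by
  classical
  let F : Finset (Fin m) := Finset.univ.filter S
  refine ⟨F.card, fun j => (F.equivFin.symm j : Fin m), fun j => ?_, fun i hi => ?_⟩
  · exact (Finset.mem_filter.1 (F.equivFin.symm j).2).2
  · exact ⟨F.equivFin ⟨i, Finset.mem_filter.2 ⟨Finset.mem_univ i, hi⟩⟩, by simp⟩

/-- If the group of `K` embeds in the product of groups which are zero, it is zero. -/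
theorem t1_of_embeds' {k M : Type} [Field k] [Field M] [Algebra k M] [IsAlgClosed M]
    {K : IntermediateField k M} (hK : ∀ x : M, IsAlgebraic K x) {ℓ : ℕ}
    {m : ℕ} (L : Fin m → IntermediateField k M)
    (h : ∀ i, T1 k (L i) ℓ ∧ ∀ x : M, IsAlgebraic (L i) x) (hE : Embeds k ℓ K L) :
    T1 k K ℓ := by
  have halg : Algebra.IsAlgebraic K M := ⟨hK⟩
  rw [t1_iff k K M ℓ]
  obtain ⟨Ψ, h1, -, h3⟩ := hE
  intro c hc
  refine (h3 c hc).1 fun i => ?_
  have halg' : Algebra.IsAlgebraic (L i) M := ⟨(h i).2⟩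
  exact (t1_iff k (L i) M ℓ).1 (h i).1 _ (h1 c hc i)

/-- If the group of `K` embeds in the product of the groups of the fields `K₁ K₂`, it is zero. -/
theorem t1_of_embeds (hG : Goal) {k M : Type} [Field k] [Finite k] [Field M] [Algebra k M]
    [IsAlgClosed M] (K : IntermediateField k M) (hK : ∀ x : M, IsAlgebraic K x) {m : ℕ}
    (K₁ K₂ : Fin m → IntermediateField k M)
    (h : ∀ i, (K₁ i).FG ∧ (K₂ i).FG ∧ Algebra.trdeg k (K₁ i) ≤ 1 ∧ Algebra.trdeg k (K₂ i) ≤ 1 ∧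
      ∀ x : M, IsAlgebraic (K₁ i ⊔ K₂ i : IntermediateField k M) x)
    {ℓ : ℕ} (hℓ : ℓ.Prime) (hk : (ℓ : k) ≠ 0) (hE : Embeds k ℓ K fun i => K₁ i ⊔ K₂ i) :
    T1 k K ℓ := by
  refine t1_of_embeds' hK _ (fun i => ?_) hE
  obtain ⟨a1, a2, a3, a4, a5⟩ := h i
  exact ⟨hG k M _ _ a1 a2 a3 a4 ℓ hℓ hk, a5⟩

end TIF
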